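import Pool.Agent.Run7.h381.WU.Stm

/-!
# Project WU (helper381): splitting of the labels (LAB, INJ)
-/

set_option autoImplicit false

namespace Run7.h890.WU

open MeasureTheory Filter Finset ProbabilityTheory
open scoped ENNReal Topology unitInterval
open Run7.h381.WU

/-- Splitting an i.i.d. family of pairs. -/
theorem split_prod {A V : Type} [MeasurableSpace A] (ν : Measure A) [IsProbabilityMeasure ν] :
    (Measure.infinitePi fun _ : V => ν.prod ν).map
      (fun x => ((fun v => (x v).1), (fun v => (x v).2))) =
    (Measure.infinitePi fun _ : V => ν).prod (Measure.infinitePi fun _ : V => ν) := by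
  set μ₀ : Measure (V × Bool → A) := Measure.infinitePi fun _ => ν with hμ₀
  -- the left-hand side
  have h1 : (Measure.infinitePi fun _ : Bool => ν).map (fun y : Bool → A => (y false, y true)) =
      ν.prod ν := by
    have := Measure.infinitePi_map_eval_prod (P := fun _ : Bool => ν) (i := false) (j := true)
      (by decide)
    exact this
  have h2 : (Measure.infinitePi fun _ : V => ν.prod ν) =
      (Measure.infinitePi fun _ : V => Measure.infinitePi fun _ : Bool => ν).map
        (fun x v => (x v false, x v true)) := by
    have := Measure.infinitePi_map_pi (fun _ : V => Measure.infinitePi fun _ : Bool => ν)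
      (f := fun _ (y : Bool → A) => (y false, y true)) (fun _ => by fun_prop)
    rw [this]
    simp only [h1]
  have h3 : (Measure.infinitePi fun _ : V => Measure.infinitePi fun _ : Bool => ν) =
      μ₀.map (MeasurableEquiv.curry V Bool A) :=
    (Measure.infinitePi_map_curry (fun (_ : V) (_ : Bool) => ν)).symm
  -- the right-hand side
  have h4 : (Measure.infinitePi fun _ : Bool => Measure.infinitePi fun _ : V => ν).map
      (fun y : Bool → V → A => (y false, y true)) =
      (Measure.infinitePi fun _ : V => ν).prod (Measure.infinitePi fun _ : V => ν) :=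
    Measure.infinitePi_map_eval_prod (P := fun _ : Bool => Measure.infinitePi fun _ : V => ν)
      (i := false) (j := true) (by decide)
  have h5 : (Measure.infinitePi fun _ : Bool => Measure.infinitePi fun _ : V => ν) =
      (Measure.infinitePi fun _ : Bool × V => ν).map (MeasurableEquiv.curry Bool V A) :=
    (Measure.infinitePi_map_curry (fun (_ : Bool) (_ : V) => ν)).symm
  have h6 : (Measure.infinitePi fun _ : Bool × V => ν) =
      μ₀.map (fun ω (p : Bool × V) => ω (p.2, p.1)) := by
    have := Measure.map_infinitePi_infinitePi_of_inj (P := fun _ : V × Bool => ν)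
      (f := fun p : Bool × V => (p.2, p.1)) (fun p q h => by
        rw [Prod.mk.injEq] at h
        exact Prod.ext h.2 h.1)
    exact this.symm
  rw [h2, h3, ← h4, h5, h6]
  rw [Measure.map_map (by fun_prop) (by fun_prop), Measure.map_map (by fun_prop) (by fun_prop),
    Measure.map_map (by fun_prop) (by fun_prop), Measure.map_map (by fun_prop) (by fun_prop)]
  rfl

theorem LAB : S_LAB := by
  obtain ⟨g, hg, hgm⟩ := Measure.exists_measurable_map_eq
    ((Measure.infinitePi fun _ : ℕ => (volume : Measure I)).prod
      (Measure.infinitePi fun _ : ℕ => (volume : Measure I)))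
  refine ⟨g, hg, fun V _ => ?_⟩
  rw [labels2, ← split_prod]
  have h1 : (labels V).map (fun u v => g (u v)) = Measure.infinitePi fun _ : V =>
      (Measure.infinitePi fun _ : ℕ => (volume : Measure I)).prod
      (Measure.infinitePi fun _ : ℕ => (volume : Measure I)) := by
    have := Measure.infinitePi_map_pi (fun _ : V => (volume : Measure I)) (f := fun _ => g)
      (fun _ => hg)
    rw [labels, this]
    simp only [hgm]
  rw [← h1, Measure.map_map (by fun_prop) (by fun_prop)]
  rfl

theorem INJ : S_INJ := by
  intro V _
  have key : ∀ v w : V, v ≠ w → ∀ᵐ a ∂(labels2 V), a v 0 ≠ a w 0 := by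
    intro v w hvw
    have h1 : (labels2 V).map (fun a => (a v 0, a w 0)) = (volume : Measure I).prod volume := by
      have h2 : (labels2 V).map (fun a => (a v, a w)) =
          (Measure.infinitePi fun _ : ℕ => (volume : Measure I)).prod
            (Measure.infinitePi fun _ : ℕ => (volume : Measure I)) :=
        Measure.infinitePi_map_eval_prod
          (P := fun _ : V => Measure.infinitePi fun _ : ℕ => (volume : Measure I)) hvw
      have h3 : (fun a : V → ℕ → I => (a v 0, a w 0)) =
          (Prod.map (fun x : ℕ → I => x 0) (fun x : ℕ → I => x 0)) ∘ (fun a => (a v, a w)) := rfl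
      rw [h3, ← Measure.map_map (by fun_prop) (by fun_prop), h2,
        ← Measure.map_prod_map _ _ (by fun_prop) (by fun_prop), Measure.infinitePi_map_eval]
    have h4 : MeasurableSet {p : I × I | p.1 = p.2} := measurableSet_eq_fun measurable_fst
      measurable_snd
    have h5 : ((volume : Measure I).prod volume) {p : I × I | p.1 = p.2} = 0 := by
      rw [Measure.prod_apply h4]
      have : ∀ x : I, (volume : Measure I) (Prod.mk x ⁻¹' {p : I × I | p.1 = p.2}) = 0 := by
        intro x
        have e : Prod.mk x ⁻¹' {p : I × I | p.1 = p.2} = {x} := by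
          ext y
          simp [eq_comm]
        rw [e]
        exact measure_singleton x
      simp only [this, lintegral_zero]
    rw [← h1, Measure.map_apply (by fun_prop) h4] at h5
    rw [ae_iff]
    convert h5 using 2
    ext a
    simp
  have h : ∀ᵐ a ∂(labels2 V), ∀ v w : V, v ≠ w → a v 0 ≠ a w 0 := by
    rw [ae_all_iff]
    intro v
    rw [ae_all_iff]
    intro w
    by_cases hvw : v = w
    · exact Filter.Eventually.of_forall fun a h => absurd hvw h
    · filter_upwards [key v w hvw] with a ha _
      exact ha
  filter_upwards [h] with a ha v w hvw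
  by_contra hne
  exact ha v w hne hvw

end Run7.h890.WU
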