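import Pool.Agent.Run7.h381.WU.Stm

/-!
# Project WU (helper381): measurability of the partitions and of the forests (MSIM, MEAS)
-/

set_option autoImplicit false

namespace Run7.h890.WU

open MeasureTheory Filter Finset
open scoped ENNReal Topology unitInterval
open Pool.Agent.TH968.UST (Conn IsSpan trees wired touch ustProb)
open Pool.Agent.H424R3.Pow (RandomRootedGraph graphSigma hitWithin returnWithin nbrAvg Recurrent)
open Run7.h381.WU

attribute [local instance] Pool.Agent.H424R3.Pow.graphSigma

section general

variable {P : Type} [MeasurableSpace P]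

theorem meas_sub {β : Type} [Countable β] {F : P → β} (hF : ∀ b, Measurable fun p => F p = b)
    {Q : β → P → Prop} (hQ : ∀ b, Measurable (Q b)) : Measurable fun p => Q (F p) p := by
  have e : (fun p => Q (F p) p) = fun p => ∃ b, F p = b ∧ Q b p := by
    funext p
    exact propext ⟨fun h => ⟨_, rfl, h⟩, fun ⟨b, h1, h2⟩ => h1 ▸ h2⟩
  rw [e]
  exact Measurable.exists fun b => (hF b).and (hQ b)

theorem meas_comp {β γ : Type} [Countable β] {F : P → β} (hF : ∀ b, Measurable fun p => F p = b)
    (φ : β → γ) (c : γ) : Measurable fun p => φ (F p) = c :=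
  meas_sub hF (Q := fun b _ => φ b = c) fun _ => measurable_const

theorem meas_fin {β : Type} [Countable β] {E : P → Finset β} (h : ∀ b, Measurable fun p => b ∈ E p)
    (E₀ : Finset β) : Measurable fun p => E p = E₀ := by
  have e : (fun p => E p = E₀) = fun p => ∀ b, (b ∈ E p ↔ b ∈ E₀) := by
    funext p
    exact propext Finset.ext_iff
  rw [e]
  exact Measurable.forall fun b => (h b).iff measurable_const

end general

section graph

variable {V : Type} [Countable V]

omit [Countable V] in
theorem meas_adj (x y : V) : Measurable fun G : SimpleGraph V => G.Adj x y := by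
  rw [← measurableSet_setOfPred]
  exact MeasurableSpace.measurableSet_generateFrom ⟨x, y, rfl⟩

theorem meas_nbr_eq (x : V) (S : Set V) : Measurable fun G : SimpleGraph V => G.neighborSet x = S := by
  have e : (fun G : SimpleGraph V => G.neighborSet x = S) = fun G => ∀ y, (G.Adj x y ↔ y ∈ S) := by
    funext G
    exact propext ⟨fun h y => by rw [← h]; rfl, fun h => Set.ext h⟩
  rw [e]
  exact Measurable.forall fun y => (meas_adj x y).iff measurable_const

theorem meas_nbrAvg {f : SimpleGraph V → V → ℝ} (hf : ∀ y, Measurable fun G => f G y) (x : V) :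
    Measurable fun G => nbrAvg G (f G) x := by
  intro B hB
  have e : (fun G => nbrAvg G (f G) x) ⁻¹' B = {G : SimpleGraph V |
      (∃ S : Finset V, G.neighborSet x = (S : Set V) ∧ (∑ y ∈ S, f G y) / (S.card : ℝ) ∈ B) ∨
      ((∀ S : Finset V, ¬ G.neighborSet x = (S : Set V)) ∧ (0 : ℝ) ∈ B)} := by
    ext G
    simp only [Set.mem_preimage, Set.mem_ofPred_eq]
    by_cases hfin : (G.neighborSet x).Finite
    · obtain ⟨S, hS⟩ := hfin.exists_finset_coe
      have h1 : nbrAvg G (f G) x = (∑ y ∈ S, f G y) / (S.card : ℝ) := by
        rw [nbrAvg, ← hS, Set.ncard_coe_finset, finsum_mem_coe_finset]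
      constructor
      · intro h
        exact Or.inl ⟨S, hS.symm, h1 ▸ h⟩
      · rintro (⟨S', hS', h⟩ | ⟨h, -⟩)
        · have : S' = S := by
            apply Finset.coe_injective
            rw [← hS', hS]
          subst this
          rw [h1]
          exact h
        · exact absurd hS.symm (h S)
    · have h1 : nbrAvg G (f G) x = 0 := by
        rw [nbrAvg, Set.Infinite.ncard hfin, Nat.cast_zero, div_zero]
      rw [h1]
      constructor
      · intro h
        refine Or.inr ⟨fun S hS => hfin ?_, h⟩
        rw [hS]
        exact S.finite_toSet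
      · rintro (⟨S', hS', -⟩ | ⟨-, h⟩)
        · exfalso
          apply hfin
          rw [hS']
          exact S'.finite_toSet
        · exact h
  rw [e, measurableSet_setOfPred]
  refine Measurable.or (Measurable.exists fun S => (meas_nbr_eq x _).and ?_)
    ((Measurable.forall fun S => (meas_nbr_eq x _).not).and measurable_const)
  rw [← measurableSet_setOfPred]
  have h2 : Measurable fun G : SimpleGraph V => (∑ y ∈ S, f G y) / (S.card : ℝ) :=
    (Finset.measurable_fun_sum S fun y _ => hf y).div_const _
  exact h2 hB

theorem meas_iter (g : V → ℝ) (t : ℕ) (x : V) :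
    Measurable fun G : SimpleGraph V => (nbrAvg G)^[t] g x := by
  induction t generalizing x with
  | zero => exact measurable_const
  | succ t ih =>
    simp only [Function.iterate_succ_apply']
    exact meas_nbrAvg (f := fun G => (nbrAvg G)^[t] g) (fun y => ih y) x

theorem meas_hh (N : ℕ) (x w : V) : Measurable fun G : SimpleGraph V => hh G N x w := by
  unfold hh GA
  exact Measurable.div_const (Finset.measurable_fun_sum _ fun t _ => meas_iter _ t x) _

theorem meas_SS (c : ℝ) (N : ℕ) (x w : V) :
    Measurable fun p : SimpleGraph V × (V → I) => w ∈ SS c N p.1 p.2 x := by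
  rw [← measurableSet_setOfPred]
  show MeasurableSet {p : SimpleGraph V × (V → I) | ((p.2 w : I) : ℝ) < c * hh p.1 N x w}
  apply measurableSet_lt
  · exact measurable_subtype_coe.comp ((measurable_pi_apply w).comp measurable_snd)
  · exact ((meas_hh N x w).comp measurable_fst).const_mul c

theorem meas_sim (c : ℝ) (N : ℕ) (x y : V) :
    Measurable fun p : SimpleGraph V × (V → I) => sim c N p.1 p.2 x y := by
  have e : (fun p : SimpleGraph V × (V → I) => sim c N p.1 p.2 x y) = fun p =>
      x = y ∨ ((∀ w, (w ∈ SS c N p.1 p.2 x ↔ w ∈ SS c N p.1 p.2 y)) ∧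
        ∃ w, w ∈ SS c N p.1 p.2 x) := by
    funext p
    apply propext
    show (x = y ∨ (SS c N p.1 p.2 x = SS c N p.1 p.2 y ∧ (SS c N p.1 p.2 x).Nonempty)) ↔ _
    rw [Set.ext_iff]
    rfl
  rw [e]
  exact measurable_const.or ((Measurable.forall fun w => (meas_SS c N x w).iff
    (meas_SS c N y w)).and (Measurable.exists fun w => meas_SS c N x w))

theorem MSIM : S_MSIM := by
  intro V _ c N x y
  exact measurableSet_setOfPred.2 (meas_sim c N x y)

end graph

section forest

variable {V : Type} [Countable V]

/-- The space of labelled graphs. -/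
abbrev Sp (V : Type) : Type := SimpleGraph V × ((V → ℕ → I) × (V → ℕ → I))

theorem meas_RR (c : ℕ → ℝ) (N : ℕ → ℕ) (k : ℕ) (x y : V) :
    Measurable fun p : Sp V => RR c N p.1 p.2.1 k x y := by
  cases k with
  | zero => exact measurable_const
  | succ k =>
    show Measurable fun p : Sp V => ∀ j, k ≤ j → sim (c j) (N j) p.1 (fun v => p.2.1 v (j + 1)) x y
    refine Measurable.forall fun j => measurable_const.imp ?_
    have h : Measurable fun p : Sp V => (p.1, fun v => p.2.1 v (j + 1)) := by
      refine measurable_fst.prodMk (measurable_pi_lambda _ fun v => ?_)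
      exact (measurable_pi_apply (j + 1)).comp ((measurable_pi_apply v).comp
        (measurable_fst.comp measurable_snd))
    exact (meas_sim (c j) (N j) x y).comp h

theorem meas_class (c : ℕ → ℝ) (N : ℕ → ℕ) (k : ℕ) (C : Finset V) :
    Measurable fun p : Sp V => IsClass (RR c N p.1 p.2.1 k) C := by
  unfold IsClass
  exact Measurable.exists fun v => Measurable.forall fun w =>
    measurable_const.iff (meas_RR c N k v w)

theorem meas_Inn (c : ℕ → ℝ) (N : ℕ → ℕ) (k : ℕ) (e : Sym2 V) :
    Measurable fun p : Sp V => e ∈ Inn (RR c N p.1 p.2.1 k) := by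
  show Measurable fun p : Sp V => ∀ a ∈ e, ∀ b ∈ e, RR c N p.1 p.2.1 k a b
  exact Measurable.forall fun a => measurable_const.imp (Measurable.forall fun b =>
    measurable_const.imp (meas_RR c N k a b))

omit [Countable V] in
theorem meas_edge (e : Sym2 V) : Measurable fun p : Sp V => e ∈ p.1.edgeSet := by
  induction e with
  | h a b =>
    simp only [SimpleGraph.mem_edgeSet]
    exact (meas_adj a b).comp measurable_fst

omit [Countable V] in
theorem meas_ins (C : Finset V) (e : Sym2 V) : Measurable fun p : Sp V => e ∈ ins p.1 C := by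
  simp only [ins, Finset.mem_filter]
  exact measurable_const.and (meas_edge e)

theorem meas_rk (C : Finset V) (v : V) (n : ℕ) :
    Measurable fun p : Sp V => rk (fun v => p.2.1 v 0) C v = n := by
  unfold rk
  refine meas_comp (meas_fin fun w => ?_) Finset.card n
  simp only [Finset.mem_filter]
  refine measurable_const.and ?_
  rw [← measurableSet_setOfPred]
  apply measurableSet_lt
  · exact (measurable_pi_apply 0).comp ((measurable_pi_apply w).comp
      (measurable_fst.comp measurable_snd))
  · exact (measurable_pi_apply 0).comp ((measurable_pi_apply v).comp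
      (measurable_fst.comp measurable_snd))

theorem meas_map (C : Finset V) (e : Sym2 V) (z : Sym2 ℕ) :
    Measurable fun p : Sp V => Sym2.map (rk (fun v => p.2.1 v 0) C) e = z := by
  induction e with
  | h a b =>
    simp only [Sym2.map_mk]
    exact meas_sub (meas_rk C a) (Q := fun m p => s(m, rk (fun v => p.2.1 v 0) C b) = z)
      fun m => meas_comp (meas_rk C b) (fun n => s(m, n)) z

theorem meas_rkI (C : Finset V) {E : Sp V → Finset (Sym2 V)}
    (hE : ∀ e, Measurable fun p => e ∈ E p) (A : Finset (Sym2 ℕ)) :
    Measurable fun p : Sp V => rkI (fun v => p.2.1 v 0) C (E p) = A := by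
  refine meas_fin (fun z => ?_) A
  simp only [rkI, Finset.mem_image]
  exact Measurable.exists fun e => (hE e).and (meas_map C e z)

theorem meas_Tk {K : Finset (Sym2 ℕ) → Finset (Sym2 ℕ) → Finset (Sym2 ℕ) → I → Finset (Sym2 ℕ)}
    (hK : IsKernel K) (c : ℕ → ℝ) (N : ℕ → ℕ) (k : ℕ) (e : Sym2 V) :
    Measurable fun p : Sp V =>
      e ∈ Tk K p.1 (RR c N p.1 p.2.1) (fun v => p.2.1 v 0) p.2.2 k := by
  induction k generalizing e with
  | zero => exact measurable_const
  | succ k ih =>
    classical
    simp only [Tk, Set.mem_ofPred_eq]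
    refine Measurable.exists fun C => (meas_class c N (k + 1) C).and ((meas_ins C e).and ?_)
    refine Measurable.exists fun v => measurable_const.and ((meas_rk C v 0).and ?_)
    have hA := meas_rkI (V := V) C (E := fun p => ins p.1 C) (fun e => meas_ins C e)
    have hB := meas_rkI (V := V) C
      (E := fun p => (ins p.1 C).filter (· ∈ Inn (RR c N p.1 p.2.1 k))) (fun e => by
        simp only [Finset.mem_filter]
        exact (meas_ins C e).and (meas_Inn c N k e))
    have hD := meas_rkI (V := V) C
      (E := fun p => (ins p.1 C).filter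
        (· ∈ Tk K p.1 (RR c N p.1 p.2.1) (fun v => p.2.1 v 0) p.2.2 k)) (fun e => by
        simp only [Finset.mem_filter]
        exact (meas_ins C e).and (ih e))
    refine meas_sub (meas_map C e) (Q := fun z p => z ∈ K
      (rkI (fun v => p.2.1 v 0) C (ins p.1 C))
      (rkI (fun v => p.2.1 v 0) C ((ins p.1 C).filter (· ∈ Inn (RR c N p.1 p.2.1 k))))
      (rkI (fun v => p.2.1 v 0) C ((ins p.1 C).filter
        (· ∈ Tk K p.1 (RR c N p.1 p.2.1) (fun v => p.2.1 v 0) p.2.2 k)))
      (p.2.2 v (k + 1))) fun z => ?_
    refine meas_sub hA (Q := fun A p => z ∈ K A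
      (rkI (fun v => p.2.1 v 0) C ((ins p.1 C).filter (· ∈ Inn (RR c N p.1 p.2.1 k))))
      (rkI (fun v => p.2.1 v 0) C ((ins p.1 C).filter
        (· ∈ Tk K p.1 (RR c N p.1 p.2.1) (fun v => p.2.1 v 0) p.2.2 k)))
      (p.2.2 v (k + 1))) fun A => ?_
    refine meas_sub hB (Q := fun B p => z ∈ K A B
      (rkI (fun v => p.2.1 v 0) C ((ins p.1 C).filter
        (· ∈ Tk K p.1 (RR c N p.1 p.2.1) (fun v => p.2.1 v 0) p.2.2 k)))
      (p.2.2 v (k + 1))) fun B => ?_
    refine meas_sub hD (Q := fun D p => z ∈ K A B D (p.2.2 v (k + 1))) fun D => ?_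
    refine meas_sub (F := fun p : Sp V => K A B D (p.2.2 v (k + 1))) (fun T => ?_)
      (Q := fun T _ => z ∈ T) fun T => measurable_const
    rw [← measurableSet_setOfPred]
    have h : Measurable fun p : Sp V => p.2.2 v (k + 1) :=
      (measurable_pi_apply (k + 1)).comp ((measurable_pi_apply v).comp
        (measurable_snd.comp measurable_snd))
    exact h (hK.meas A B D T)

theorem MEAS : S_MEAS := by
  intro K hK c N V _ e
  refine measurableSet_setOfPred.2 ?_
  show Measurable fun p : Sp V => ∃ n, ∀ k, n ≤ k →
    e ∈ Tk K p.1 (RR c N p.1 p.2.1) (fun v => p.2.1 v 0) p.2.2 k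
  exact Measurable.exists fun n => Measurable.forall fun k =>
    measurable_const.imp (meas_Tk hK c N k e)

end forest

end Run7.h890.WU
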